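import Mathlib
import Pool.Agent.QPI.Stmts

set_option autoImplicit false

/-!
# Squad QPI, row A_MC: recursion for the matrix coefficients
-/

namespace Pool.Agent.QPI.H13

open MvPolynomial

variable {κ υ : Type} [Fintype κ] [DecidableEq κ] [Fintype υ] [DecidableEq υ]

theorem deg_sub {β : υ →₀ ℕ} {v : υ} (h : β v ≠ 0) :
    β.degree = (β - Finsupp.single v 1).degree + 1 := by
  have h1 : β - Finsupp.single v 1 + Finsupp.single v 1 = β := by
    refine tsub_add_cancel_of_le ?_
    rw [Finsupp.single_le_iff]
    omega
  have h2 : ((β - Finsupp.single v 1) + Finsupp.single v 1).degree =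
      (β - Finsupp.single v 1).degree + (Finsupp.single v 1).degree := map_add _ _ _
  rw [h1, Finsupp.degree_single] at h2
  exact h2

theorem a_mc : McStmt := by
  intro κ υ _ _ _ _ B
  refine ⟨?_, ?_, ?_⟩
  · ext a b
    unfold Mc
    rw [Matrix.of_apply, map_zero, pow_zero, Matrix.one_apply, Matrix.one_apply]
    split_ifs
    · rw [coeff_zero_one]
    · rw [coeff_zero]
  · intro β hβ
    obtain ⟨d, hd⟩ : ∃ d, β.degree = d + 1 := by
      refine Nat.exists_eq_succ_of_ne_zero fun h => hβ ?_
      exact (Finsupp.degree_eq_zero_iff _).1 h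
    ext a b
    have e1 : ∀ v : υ, (if β v = 0 then (0 : Matrix κ κ ℚ) else
        B v * Mc B (β - Finsupp.single v 1)) a b =
        ∑ c, (if β v = 0 then 0 else B v a c * coeff (β - Finsupp.single v 1)
          (((∑ v, (X v : MvPolynomial υ ℚ) • (B v).map (C : ℚ →+* MvPolynomial υ ℚ)) ^ d) c b)) := by
      intro v
      by_cases h : β v = 0
      · simp [h]
      · have h2 : (β - Finsupp.single v 1).degree = d := by
          have := deg_sub h
          omega
        simp only [h, if_false]
        rw [Matrix.mul_apply]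
        refine Finset.sum_congr rfl fun c _ => ?_
        unfold Mc
        rw [Matrix.of_apply, h2]
    rw [Matrix.sum_apply, Finset.sum_congr rfl fun v _ => e1 v, Finset.sum_comm]
    unfold Mc
    rw [Matrix.of_apply, hd, pow_succ', Matrix.mul_apply, coeff_sum]
    refine Finset.sum_congr rfl fun c _ => ?_
    rw [Matrix.sum_apply, Finset.sum_mul, coeff_sum]
    refine Finset.sum_congr rfl fun v _ => ?_
    rw [Matrix.smul_apply, Matrix.map_apply, smul_eq_mul, mul_assoc, coeff_X_mul']
    have h3 : v ∈ β.support ↔ ¬ β v = 0 := Finsupp.mem_support_iff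
    by_cases h : β v = 0
    · rw [if_neg (fun h4 => h3.1 h4 h), if_pos h]
    · rw [if_pos (h3.2 h), if_neg h, coeff_C_mul]
  · intro β
    unfold trc Matrix.trace Mc
    rw [coeff_sum]
    rfl

end Pool.Agent.QPI.H13
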