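import Mathlib
import Pool.Agent.QPI.Stmts

set_option autoImplicit false
set_option linter.unusedSectionVars false

/-!
# Squad QPI, row A_PHS: the recursion solved
-/

namespace Pool.Agent.QPI.H13

open MvPolynomial

variable {κ υ : Type} [Fintype κ] [DecidableEq κ] [Fintype υ] [DecidableEq υ]

theorem sub_add' {β : υ →₀ ℕ} {v : υ} (h : β v ≠ 0) :
    β - Finsupp.single v 1 + Finsupp.single v 1 = β := by
  refine tsub_add_cancel_of_le ?_
  rw [Finsupp.single_le_iff]
  omega

theorem deg_sub' {β : υ →₀ ℕ} {v : υ} (h : β v ≠ 0) :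
    β.degree = (β - Finsupp.single v 1).degree + 1 := by
  have h2 : ((β - Finsupp.single v 1) + Finsupp.single v 1).degree =
      (β - Finsupp.single v 1).degree + (Finsupp.single v 1).degree := map_add _ _ _
  rw [sub_add' h, Finsupp.degree_single] at h2
  exact h2

theorem anti_sum (F : (υ →₀ ℕ) → (υ →₀ ℕ) → ℚ) (γ : υ →₀ ℕ) (v : υ) :
    ∑ p ∈ Finset.HasAntidiagonal.antidiagonal γ,
      (if p.1 v = 0 then 0 else F (p.1 - Finsupp.single v 1) p.2) =
    if γ v = 0 then 0 else
      ∑ p ∈ Finset.HasAntidiagonal.antidiagonal (γ - Finsupp.single v 1), F p.1 p.2 := by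
  by_cases hγ : γ v = 0
  · rw [if_pos hγ]
    refine Finset.sum_eq_zero fun p hp => ?_
    have h1 : p.1 + p.2 = γ := Finset.HasAntidiagonal.mem_antidiagonal.1 hp
    have h2 : p.1 v + p.2 v = γ v := by rw [← h1]; rfl
    rw [if_pos (by omega)]
  · rw [if_neg hγ]
    have e : ∀ p ∈ Finset.HasAntidiagonal.antidiagonal γ,
        (if p.1 v = 0 then 0 else F (p.1 - Finsupp.single v 1) p.2) =
        if ¬ p.1 v = 0 then F (p.1 - Finsupp.single v 1) p.2 else 0 := fun p _ => by
      by_cases h : p.1 v = 0
      · rw [if_pos h, if_neg (not_not.2 h)]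
      · rw [if_neg h, if_pos h]
    rw [Finset.sum_congr rfl e, ← Finset.sum_filter]
    refine Finset.sum_nbij' (fun p => (p.1 - Finsupp.single v 1, p.2))
      (fun p => (p.1 + Finsupp.single v 1, p.2)) ?_ ?_ ?_ ?_ ?_
    · intro p hp
      rw [Finset.mem_filter] at hp
      have h1 : p.1 + p.2 = γ := Finset.HasAntidiagonal.mem_antidiagonal.1 hp.1
      refine Finset.HasAntidiagonal.mem_antidiagonal.2 ?_
      show p.1 - Finsupp.single v 1 + p.2 = γ - Finsupp.single v 1
      have h3 := sub_add' (β := p.1) (v := v) hp.2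
      have h4 := sub_add' (β := γ) (v := v) hγ
      have h5 : (p.1 - Finsupp.single v 1 + p.2) + Finsupp.single v 1 =
          (γ - Finsupp.single v 1) + Finsupp.single v 1 := by
        rw [h4, add_right_comm, h3, h1]
      exact add_right_cancel h5
    · intro p hp
      have h1 : p.1 + p.2 = γ - Finsupp.single v 1 := Finset.HasAntidiagonal.mem_antidiagonal.1 hp
      rw [Finset.mem_filter]
      refine ⟨Finset.HasAntidiagonal.mem_antidiagonal.2 ?_, ?_⟩
      · show p.1 + Finsupp.single v 1 + p.2 = γ
        rw [add_right_comm, h1, sub_add' hγ]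
      · show ¬ (p.1 + Finsupp.single v 1 : υ →₀ ℕ) v = 0
        rw [Finsupp.add_apply, Finsupp.single_eq_same]
        omega
    · intro p hp
      rw [Finset.mem_filter] at hp
      exact Prod.ext (sub_add' hp.2) rfl
    · intro p hp
      exact Prod.ext (add_tsub_cancel_right _ _) rfl
    · intro p hp
      rfl

theorem a_phs (hPhi : PhiStmt) (hMc : McStmt) : PhsStmt := by
  intro κ υ _ _ _ _ B hB
  obtain ⟨m0, m1, -⟩ := hMc κ υ B
  have main : ∀ (d : ℕ) (γ : υ →₀ ℕ), γ.degree = d → ∀ N : Matrix κ κ ℚ,
      ph B N γ = ∑ p ∈ Finset.HasAntidiagonal.antidiagonal γ,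
        2 ^ p.1.degree * Matrix.trace (N * Mc B p.1) * gg B p.2 := by
    intro d
    induction d using Nat.strong_induction_on with
    | _ d ih =>
      intro γ hγ N
      rw [hPhi κ υ B hB N γ]
      have e1 : ∀ v : υ, (if γ v = 0 then 0 else ph B (N * B v) (γ - Finsupp.single v 1)) =
          ∑ p ∈ Finset.HasAntidiagonal.antidiagonal γ, (if p.1 v = 0 then 0 else
            2 ^ (p.1 - Finsupp.single v 1).degree *
              Matrix.trace (N * B v * Mc B (p.1 - Finsupp.single v 1)) * gg B p.2) := by
        intro v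
        rw [anti_sum (fun a b => 2 ^ a.degree * Matrix.trace (N * B v * Mc B a) * gg B b) γ v]
        by_cases h : γ v = 0
        · rw [if_pos h, if_pos h]
        · rw [if_neg h, if_neg h]
          have h1 := deg_sub' h
          exact ih _ (by omega) _ rfl _
      rw [Finset.sum_congr rfl fun v _ => e1 v, Finset.sum_comm, Finset.mul_sum]
      have e2 : Matrix.trace N * gg B γ = ∑ p ∈ Finset.HasAntidiagonal.antidiagonal γ,
          (if p.1 = 0 then Matrix.trace N * gg B p.2 else 0) := by
        rw [Finset.sum_eq_single ((0 : υ →₀ ℕ), γ)]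
        · rw [if_pos rfl]
        · intro p hp hne
          rw [if_neg]
          intro h
          apply hne
          have h1 : p.1 + p.2 = γ := Finset.HasAntidiagonal.mem_antidiagonal.1 hp
          rw [h, zero_add] at h1
          exact Prod.ext h h1
        · intro h
          exact absurd (Finset.HasAntidiagonal.mem_antidiagonal.2 (zero_add γ)) h
      rw [e2, ← Finset.sum_add_distrib]
      refine Finset.sum_congr rfl fun p _ => ?_
      by_cases h : p.1 = 0
      · rw [if_pos h, h, m0, map_zero, pow_zero, mul_one, one_mul]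
        have e3 : ∑ v : υ, (if (0 : υ →₀ ℕ) v = 0 then (0 : ℚ) else
            2 ^ ((0 : υ →₀ ℕ) - Finsupp.single v 1).degree *
              Matrix.trace (N * B v * Mc B (0 - Finsupp.single v 1)) * gg B p.2) = 0 :=
          Finset.sum_eq_zero fun v _ => if_pos rfl
        rw [e3, mul_zero, add_zero]
      · rw [if_neg h, zero_add, m1 _ h, Matrix.mul_sum, Matrix.trace_sum, Finset.mul_sum,
          Finset.mul_sum, Finset.sum_mul]
        refine Finset.sum_congr rfl fun v _ => ?_
        by_cases hv : p.1 v = 0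
        · rw [if_pos hv, if_pos hv, Matrix.mul_zero, Matrix.trace_zero]
          ring
        · rw [if_neg hv, if_neg hv, deg_sub' hv, pow_succ, Matrix.mul_assoc]
          ring
  intro N γ
  exact main _ γ rfl N

end Pool.Agent.QPI.H13
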